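import Mathlib

/-!
MP_eb68d6_co, smoothed twins, module A.

Independent random points with values in a finite set of cells; the points are split into a red
and a blue class.  The probability that no cell of `S` contains a red and a blue point is at most
`prod_{c in S} (1 - (1 - exp(-r_c)) (1 - exp(-b_c)))`.
-/

namespace Pool.Agent.STw

open Finset

theorem sum_prod_fun {α ι : Type*} [Fintype α] [Fintype ι] [DecidableEq α] [DecidableEq ι]
    (g : α → ι → ℝ) : ∑ f : α → ι, ∏ a, g a (f a) = ∏ a, ∑ c, g a c := by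
  rw [Finset.prod_univ_sum]
  rw [Fintype.piFinset_univ]

/-- probability that no point lies in `T` -/
theorem avoid_le {β ι : Type*} [Fintype β] [Fintype ι] [DecidableEq β] [DecidableEq ι]
    (q : β → ι → ℝ) (hq : ∀ b c, 0 ≤ q b c) (hq1 : ∀ b, ∑ c, q b c = 1) (T : Finset ι) :
    ∑ g : β → ι, (∏ b, q b (g b)) * (if ∀ b, g b ∉ T then (1 : ℝ) else 0) ≤
      ∏ c ∈ T, Real.exp (-∑ b, q b c) := by
  have h1 : ∀ g : β → ι, (∏ b, q b (g b)) * (if ∀ b, g b ∉ T then (1 : ℝ) else 0) =
      ∏ b, (q b (g b) * (if g b ∈ T then 0 else 1)) := by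
    intro g
    rw [Finset.prod_mul_distrib]
    congr 1
    by_cases h : ∀ b, g b ∉ T
    · rw [if_pos h]
      symm
      apply Finset.prod_eq_one
      intro b _
      rw [if_neg (h b)]
    · rw [if_neg h]
      push Not at h
      obtain ⟨b, hb⟩ := h
      symm
      apply Finset.prod_eq_zero (Finset.mem_univ b)
      rw [if_pos hb]
  rw [Finset.sum_congr rfl fun g _ => h1 g]
  rw [sum_prod_fun (fun b c => q b c * (if c ∈ T then 0 else 1))]
  have h2 : ∀ b, ∑ c, q b c * (if c ∈ T then (0 : ℝ) else 1) = 1 - ∑ c ∈ T, q b c := by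
    intro b
    have h3 : ∀ c, q b c * (if c ∈ T then (0 : ℝ) else 1) = q b c - (if c ∈ T then q b c else 0) := by
      intro c
      split_ifs <;> ring
    rw [Finset.sum_congr rfl fun c _ => h3 c, Finset.sum_sub_distrib, hq1 b, Finset.sum_ite_mem,
      Finset.univ_inter]
  rw [Finset.prod_congr rfl fun b _ => h2 b]
  have h4 : ∏ b, (1 - ∑ c ∈ T, q b c) ≤ ∏ b, Real.exp (-∑ c ∈ T, q b c) := by
    apply Finset.prod_le_prod
    · intro b _
      have : ∑ c ∈ T, q b c ≤ ∑ c, q b c :=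
        Finset.sum_le_univ_sum_of_nonneg (fun c => hq b c)
      rw [hq1 b] at this
      linarith
    · intro b _
      have := Real.add_one_le_exp (-∑ c ∈ T, q b c)
      linarith
  refine h4.trans (le_of_eq ?_)
  rw [← Real.exp_sum, ← Real.exp_sum, Finset.sum_neg_distrib, Finset.sum_neg_distrib,
    Finset.sum_comm]

/-- `LEMMA A` -/
theorem noColl_le {α β ι : Type*} [Fintype α] [Fintype β] [Fintype ι] [DecidableEq α]
    [DecidableEq β] [DecidableEq ι]
    (p : α → ι → ℝ) (q : β → ι → ℝ) (hp : ∀ a c, 0 ≤ p a c) (hq : ∀ b c, 0 ≤ q b c)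
    (hp1 : ∀ a, ∑ c, p a c = 1) (hq1 : ∀ b, ∑ c, q b c = 1) (S : Finset ι) :
    ∑ g : β → ι, ∑ f : α → ι, (∏ b, q b (g b)) * ((∏ a, p a (f a)) *
        (if ∀ a b, f a = g b → f a ∉ S then (1 : ℝ) else 0)) ≤
      ∏ c ∈ S, (1 - (1 - Real.exp (-∑ a, p a c)) * (1 - Real.exp (-∑ b, q b c))) := by
  set e : ι → ℝ := fun c => Real.exp (-∑ a, p a c) with he
  have he1 : ∀ c, e c ≤ 1 := by
    intro c
    rw [he]
    apply Real.exp_le_one_iff.2
    have := Finset.sum_nonneg (fun a (_ : a ∈ (Finset.univ : Finset α)) => hp a c)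
    linarith
  have he0 : ∀ c, 0 ≤ e c := fun c => (Real.exp_pos _).le
  -- inner sum for a fixed g
  have h1 : ∀ g : β → ι, ∑ f : α → ι, (∏ a, p a (f a)) *
        (if ∀ a b, f a = g b → f a ∉ S then (1 : ℝ) else 0) ≤
      ∑ T ∈ S.powerset, (∏ c ∈ T, (1 - e c)) * (∏ c ∈ S \ T, e c) *
        (if ∀ b, g b ∉ T then (1 : ℝ) else 0) := by
    intro g
    have h2 : ∀ f : α → ι, (if ∀ a b, f a = g b → f a ∉ S then (1 : ℝ) else 0) =
        (if ∀ a, f a ∉ S ∩ Finset.univ.image g then (1 : ℝ) else 0) := by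
      intro f
      have h3 : (∀ a b, f a = g b → f a ∉ S) ↔ (∀ a, f a ∉ S ∩ Finset.univ.image g) := by
        constructor
        · intro h a ha
          rw [Finset.mem_inter, Finset.mem_image] at ha
          obtain ⟨h4, b, _, hb⟩ := ha
          exact h a b hb.symm h4
        · intro h a b hab hS
          apply h a
          rw [Finset.mem_inter, Finset.mem_image]
          exact ⟨hS, b, Finset.mem_univ b, hab.symm⟩
      by_cases h5 : ∀ a b, f a = g b → f a ∉ S
      · rw [if_pos h5, if_pos (h3.1 h5)]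
      · rw [if_neg h5, if_neg (fun h => h5 (h3.2 h))]
    rw [Finset.sum_congr rfl fun f _ => by rw [h2 f]]
    refine (avoid_le p hp hp1 (S ∩ Finset.univ.image g)).trans (le_of_eq ?_)
    have h4 : ∏ c ∈ S ∩ Finset.univ.image g, Real.exp (-∑ a, p a c) =
        ∏ c ∈ S, ((1 - e c) * (if c ∈ Finset.univ.image g then 0 else 1) + e c) := by
      rw [← Finset.prod_subset (Finset.inter_subset_left (s₁ := S) (s₂ := Finset.univ.image g))
        (f := fun c => ((1 - e c) * (if c ∈ Finset.univ.image g then (0 : ℝ) else 1) + e c))]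
      · apply Finset.prod_congr rfl
        intro c hc
        rw [if_pos (Finset.mem_inter.1 hc).2]
        simp [he]
      · intro c hc hc2
        have : c ∉ Finset.univ.image g := fun h => hc2 (Finset.mem_inter.2 ⟨hc, h⟩)
        rw [if_neg this]
        ring
    rw [h4, Finset.prod_add]
    apply Finset.sum_congr rfl
    intro T _
    rw [Finset.prod_mul_distrib]
    have h5 : ∏ c ∈ T, (if c ∈ Finset.univ.image g then (0 : ℝ) else 1) =
        (if ∀ b, g b ∉ T then (1 : ℝ) else 0) := by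
      by_cases h : ∀ b, g b ∉ T
      · rw [if_pos h]
        apply Finset.prod_eq_one
        intro c hc
        rw [if_neg]
        intro hc2
        rw [Finset.mem_image] at hc2
        obtain ⟨b, _, hb⟩ := hc2
        exact h b (hb ▸ hc)
      · rw [if_neg h]
        push Not at h
        obtain ⟨b, hb⟩ := h
        apply Finset.prod_eq_zero hb
        rw [if_pos (Finset.mem_image_of_mem g (Finset.mem_univ b))]
    rw [h5]
    ring
  have h6 : ∑ g : β → ι, ∑ f : α → ι, (∏ b, q b (g b)) * ((∏ a, p a (f a)) *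
        (if ∀ a b, f a = g b → f a ∉ S then (1 : ℝ) else 0)) ≤
      ∑ g : β → ι, (∏ b, q b (g b)) * ∑ T ∈ S.powerset, (∏ c ∈ T, (1 - e c)) *
        (∏ c ∈ S \ T, e c) * (if ∀ b, g b ∉ T then (1 : ℝ) else 0) := by
    apply Finset.sum_le_sum
    intro g _
    rw [← Finset.mul_sum]
    exact mul_le_mul_of_nonneg_left (h1 g) (Finset.prod_nonneg fun b _ => hq b (g b))
  refine h6.trans ?_
  have h7 : ∑ g : β → ι, (∏ b, q b (g b)) * ∑ T ∈ S.powerset, (∏ c ∈ T, (1 - e c)) *
        (∏ c ∈ S \ T, e c) * (if ∀ b, g b ∉ T then (1 : ℝ) else 0) =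
      ∑ T ∈ S.powerset, (∏ c ∈ T, (1 - e c)) * (∏ c ∈ S \ T, e c) *
        ∑ g : β → ι, (∏ b, q b (g b)) * (if ∀ b, g b ∉ T then (1 : ℝ) else 0) := by
    simp_rw [Finset.mul_sum]
    rw [Finset.sum_comm]
    apply Finset.sum_congr rfl
    intro T _
    apply Finset.sum_congr rfl
    intro g _
    ring
  rw [h7]
  have h8 : ∀ c ∈ S, (1 - (1 - Real.exp (-∑ a, p a c)) * (1 - Real.exp (-∑ b, q b c))) =
      (1 - e c) * Real.exp (-∑ b, q b c) + e c := by
    intro c _
    rw [he]
    ring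
  rw [Finset.prod_congr rfl h8, Finset.prod_add]
  apply Finset.sum_le_sum
  intro T _
  rw [Finset.prod_mul_distrib]
  have h9 : 0 ≤ (∏ c ∈ T, (1 - e c)) * (∏ c ∈ S \ T, e c) :=
    mul_nonneg (Finset.prod_nonneg fun c _ => by linarith [he1 c])
      (Finset.prod_nonneg fun c _ => he0 c)
  calc (∏ c ∈ T, (1 - e c)) * (∏ c ∈ S \ T, e c) *
        ∑ g : β → ι, (∏ b, q b (g b)) * (if ∀ b, g b ∉ T then (1 : ℝ) else 0)
      ≤ (∏ c ∈ T, (1 - e c)) * (∏ c ∈ S \ T, e c) * ∏ c ∈ T, Real.exp (-∑ b, q b c) :=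
        mul_le_mul_of_nonneg_left (avoid_le q hq hq1 T) h9
    _ = _ := by ring

end Pool.Agent.STw
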