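import Pool.Agent.STw.A

/-!
MP_eb68d6_co, smoothed twins, module B.

The cut of the points and the bound for the probability that no cell of `S` contains two points.
-/

namespace Pool.Agent.STw

open Finset

/-- flipping the element `i` -/
theorem sum_flip {α : Type*} [Fintype α] [DecidableEq α] (i : α) (F : Finset α → ℝ) :
    ∑ A : Finset α, F (symmDiff A {i}) = ∑ A : Finset α, F A := by
  have hinv : Function.Involutive (fun A : Finset α => symmDiff A {i}) := by
    intro A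
    exact symmDiff_symmDiff_cancel_right _ _
  exact Equiv.sum_comp (hinv.toPerm) F

theorem mem_flip_self {α : Type*} [DecidableEq α] (i : α) (A : Finset α) :
    i ∈ symmDiff A {i} ↔ i ∉ A := by
  rw [Finset.mem_symmDiff]
  simp

theorem mem_flip_ne {α : Type*} [DecidableEq α] {i j : α} (h : i ≠ j) (A : Finset α) :
    j ∈ symmDiff A {i} ↔ j ∈ A := by
  rw [Finset.mem_symmDiff]
  have : j ∉ ({i} : Finset α) := by
    rw [Finset.mem_singleton]
    exact fun h2 => h h2.symm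
  simp [this]

theorem count_cut {α : Type*} [Fintype α] [DecidableEq α] {i j : α} (h : i ≠ j) :
    4 * ∑ A : Finset α, (if i ∈ A ∧ j ∉ A then (1 : ℝ) else 0) = 2 ^ Fintype.card α := by
  have h1 : ∑ A : Finset α, (if i ∈ A ∧ j ∉ A then (1 : ℝ) else 0) =
      ∑ A : Finset α, (if i ∉ A ∧ j ∉ A then (1 : ℝ) else 0) := by
    rw [← sum_flip i (fun A => if i ∈ A ∧ j ∉ A then (1 : ℝ) else 0)]
    apply Finset.sum_congr rfl
    intro A _
    simp only [mem_flip_self, mem_flip_ne h]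
  have h2 : ∑ A : Finset α, (if i ∈ A ∧ j ∉ A then (1 : ℝ) else 0) =
      ∑ A : Finset α, (if i ∈ A ∧ j ∈ A then (1 : ℝ) else 0) := by
    rw [← sum_flip j (fun A => if i ∈ A ∧ j ∉ A then (1 : ℝ) else 0)]
    apply Finset.sum_congr rfl
    intro A _
    simp only [mem_flip_self, mem_flip_ne h.symm, not_not]
  have h3 : ∑ A : Finset α, (if i ∉ A ∧ j ∉ A then (1 : ℝ) else 0) =
      ∑ A : Finset α, (if i ∉ A ∧ j ∈ A then (1 : ℝ) else 0) := by
    rw [← sum_flip j (fun A => if i ∉ A ∧ j ∉ A then (1 : ℝ) else 0)]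
    apply Finset.sum_congr rfl
    intro A _
    simp only [mem_flip_self, mem_flip_ne h.symm, not_not]
  have h4 : ∑ A : Finset α, (if i ∈ A ∧ j ∉ A then (1 : ℝ) else 0) +
      ∑ A : Finset α, (if i ∉ A ∧ j ∉ A then (1 : ℝ) else 0) +
      ∑ A : Finset α, (if i ∈ A ∧ j ∈ A then (1 : ℝ) else 0) +
      ∑ A : Finset α, (if i ∉ A ∧ j ∈ A then (1 : ℝ) else 0) = 2 ^ Fintype.card α := by
    rw [← Finset.sum_add_distrib, ← Finset.sum_add_distrib, ← Finset.sum_add_distrib]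
    have : ∀ A : Finset α, (if i ∈ A ∧ j ∉ A then (1 : ℝ) else 0) +
      (if i ∉ A ∧ j ∉ A then (1 : ℝ) else 0) + (if i ∈ A ∧ j ∈ A then (1 : ℝ) else 0) +
      (if i ∉ A ∧ j ∈ A then (1 : ℝ) else 0) = 1 := by
      intro A
      by_cases hi : i ∈ A <;> by_cases hj : j ∈ A <;> simp [hi, hj]
    rw [Finset.sum_congr rfl fun A _ => this A, Finset.sum_const, Finset.card_univ,
      Fintype.card_finset]
    simp
  linarith

/-- a cut with at least a quarter of the (ordered) weight -/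
theorem exists_cut {α : Type*} [Fintype α] [DecidableEq α] (s : α → α → ℝ) :
    ∃ A : Finset α, (1 / 4 : ℝ) * ∑ i, ∑ j ∈ Finset.univ.erase i, s i j ≤
      ∑ i ∈ A, ∑ j ∈ Aᶜ, s i j := by
  by_contra hcon
  push Not at hcon
  have h1 : ∑ A : Finset α, ∑ i ∈ A, ∑ j ∈ Aᶜ, s i j =
      ∑ i, ∑ j, s i j * ∑ A : Finset α, (if i ∈ A ∧ j ∉ A then (1 : ℝ) else 0) := by
    have h2 : ∀ A : Finset α, ∑ i ∈ A, ∑ j ∈ Aᶜ, s i j =
        ∑ i, ∑ j, s i j * (if i ∈ A ∧ j ∉ A then (1 : ℝ) else 0) := by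
      intro A
      rw [← Finset.sum_subset (Finset.subset_univ A)]
      · apply Finset.sum_congr rfl
        intro i hi
        rw [← Finset.sum_subset (Finset.subset_univ Aᶜ)]
        · apply Finset.sum_congr rfl
          intro j hj
          rw [if_pos ⟨hi, Finset.mem_compl.1 hj⟩, mul_one]
        · intro j _ hj
          rw [if_neg, mul_zero]
          intro h
          exact hj (Finset.mem_compl.2 h.2)
      · intro i _ hi
        apply Finset.sum_eq_zero
        intro j _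
        rw [if_neg (fun h => hi h.1), mul_zero]
    rw [Finset.sum_congr rfl fun A _ => h2 A, Finset.sum_comm]
    apply Finset.sum_congr rfl
    intro i _
    rw [Finset.sum_comm]
    apply Finset.sum_congr rfl
    intro j _
    rw [Finset.mul_sum]
  have h3 : ∑ i, ∑ j, s i j * ∑ A : Finset α, (if i ∈ A ∧ j ∉ A then (1 : ℝ) else 0) =
      2 ^ Fintype.card α / 4 * ∑ i, ∑ j ∈ Finset.univ.erase i, s i j := by
    rw [Finset.mul_sum]
    apply Finset.sum_congr rfl
    intro i _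
    rw [Finset.mul_sum, ← Finset.add_sum_erase Finset.univ _ (Finset.mem_univ i)]
    have h4 : ∑ A : Finset α, (if i ∈ A ∧ i ∉ A then (1 : ℝ) else 0) = 0 := by
      apply Finset.sum_eq_zero
      intro A _
      rw [if_neg]
      rintro ⟨h5, h6⟩
      exact h6 h5
    rw [h4, mul_zero, zero_add]
    apply Finset.sum_congr rfl
    intro j hj
    have h5 := count_cut (α := α) (i := i) (j := j) (Finset.ne_of_mem_erase hj).symm
    have h6 : ∑ A : Finset α, (if i ∈ A ∧ j ∉ A then (1 : ℝ) else 0) =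
        2 ^ Fintype.card α / 4 := by linarith
    rw [h6]
    ring
  have h7 : ∑ A : Finset α, ∑ i ∈ A, ∑ j ∈ Aᶜ, s i j <
      ∑ _A : Finset α, (1 / 4 : ℝ) * ∑ i, ∑ j ∈ Finset.univ.erase i, s i j := by
    apply Finset.sum_lt_sum_of_nonempty Finset.univ_nonempty
    intro A _
    exact hcon A
  rw [h1, h3, Finset.sum_const, Finset.card_univ, Fintype.card_finset, nsmul_eq_mul] at h7
  push_cast at h7
  linarith

/-- `noColl_le` for a colouring of one index set -/
theorem noColl_set {α ι : Type*} [Fintype α] [Fintype ι] [DecidableEq α] [DecidableEq ι]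
    (p : α → ι → ℝ) (hp : ∀ a c, 0 ≤ p a c) (hp1 : ∀ a, ∑ c, p a c = 1) (S : Finset ι)
    (A : Finset α) :
    ∑ f : α → ι, (∏ a, p a (f a)) *
        (if ∀ i ∈ A, ∀ j, j ∉ A → f i = f j → f i ∉ S then (1 : ℝ) else 0) ≤
      ∏ c ∈ S, (1 - (1 - Real.exp (-∑ a ∈ A, p a c)) * (1 - Real.exp (-∑ b ∈ Aᶜ, p b c))) := by
  have h1 := noColl_le (α := {x // x ∈ A}) (β := {x // x ∉ A}) (fun a c => p a c)
    (fun b c => p b c) (fun a c => hp a c) (fun b c => hp b c) (fun a => hp1 a) (fun b => hp1 b) S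
  have h2 : ∀ c, ∑ a : {x // x ∈ A}, p a c = ∑ a ∈ A, p a c := by
    intro c
    exact Finset.sum_coe_sort A (fun a => p a c)
  have h3 : ∀ c, ∑ b : {x // x ∉ A}, p b c = ∑ b ∈ Aᶜ, p b c := by
    intro c
    symm
    apply Finset.sum_subtype
    intro x
    exact Finset.mem_compl
  simp_rw [h2, h3] at h1
  refine le_trans (le_of_eq ?_) h1
  rw [← Equiv.sum_comp (Equiv.piEquivPiSubtypeProd (fun x => x ∈ A) (fun _ => ι)).symm,
    Fintype.sum_prod_type_right]
  apply Finset.sum_congr rfl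
  intro g _
  apply Finset.sum_congr rfl
  intro f _
  have h4 : ∀ x : {x // x ∈ A},
      (Equiv.piEquivPiSubtypeProd (fun x => x ∈ A) (fun _ => ι)).symm (f, g) x = f x := by
    intro x
    simp [Equiv.piEquivPiSubtypeProd, x.2]
  have h5 : ∀ x : {x // x ∉ A},
      (Equiv.piEquivPiSubtypeProd (fun x => x ∈ A) (fun _ => ι)).symm (f, g) x = g x := by
    intro x
    simp [Equiv.piEquivPiSubtypeProd, x.2]
  set F := (Equiv.piEquivPiSubtypeProd (fun x => x ∈ A) (fun _ => ι)).symm (f, g) with hF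
  have h6 : ∏ a, p a (F a) = (∏ b : {x // x ∉ A}, p b (g b)) * ∏ a : {x // x ∈ A}, p a (f a) := by
    rw [← Fintype.prod_subtype_mul_prod_subtype (fun x => x ∈ A) (fun a => p a (F a)), mul_comm]
    congr 1
    · refine Finset.prod_congr ?_ (fun x _ => by rw [h5 x])
      ext x
      simp
    · refine Finset.prod_congr ?_ (fun x _ => by rw [h4 x])
      ext x
      simp
  rw [h6, mul_assoc]
  congr 2
  have h7 : (∀ i ∈ A, ∀ j, j ∉ A → F i = F j → F i ∉ S) ↔ (∀ a b, f a = g b → f a ∉ S) := by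
    constructor
    · intro h a b hab
      have := h a a.2 b b.2
      rw [h4 a, h5 b] at this
      exact this hab
    · intro h i hi j hj hij
      have h8 := h4 ⟨i, hi⟩
      have h9 := h5 ⟨j, hj⟩
      rw [h8, h9] at hij
      rw [h8]
      exact h ⟨i, hi⟩ ⟨j, hj⟩ hij
  simp only [h7]

/-- `f` has no cell of `S` with two points -/
def NoColl {α ι : Type*} (f : α → ι) (S : Finset ι) : Prop :=
  ∀ i j, i ≠ j → f i = f j → f i ∉ S

theorem one_sub_exp_ge {x y : ℝ} (hx : 0 ≤ x) (hxy : x ≤ y) :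
    x / (1 + y) ≤ 1 - Real.exp (-x) := by
  have h1 : Real.exp (-x) ≤ 1 / (1 + x) := by
    rw [Real.exp_neg, ← one_div]
    apply one_div_le_one_div_of_le (by linarith)
    linarith [Real.add_one_le_exp x]
  have h2 : x / (1 + y) ≤ x / (1 + x) := by
    apply div_le_div_of_nonneg_left hx (by linarith) (by linarith)
  have h3 : x / (1 + x) = 1 - 1 / (1 + x) := by
    field_simp
    ring
  linarith

/-- `PROPOSITION B`: probability that no cell of `S` contains two points -/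
theorem noColl_exp {α ι : Type*} [Fintype α] [Fintype ι] [DecidableEq α] [DecidableEq ι]
    (p : α → ι → ℝ) (hp : ∀ a c, 0 ≤ p a c) (hp1 : ∀ a, ∑ c, p a c = 1) (S : Finset ι)
    (F : Finset (α → ι)) (hF : ∀ f ∈ F, NoColl f S) :
    ∑ f ∈ F, ∏ a, p a (f a) ≤
      Real.exp (-((1 / 4 : ℝ) * ∑ c ∈ S, ((∑ a, p a c) ^ 2 - ∑ a, p a c ^ 2) /
        (1 + ∑ a, p a c) ^ 2)) := by
  set lam : ι → ℝ := fun c => ∑ a, p a c with hlam
  have hlam0 : ∀ c, 0 ≤ lam c := fun c => Finset.sum_nonneg fun a _ => hp a c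
  obtain ⟨A, hA⟩ := exists_cut (fun i j => ∑ c ∈ S, p i c * p j c / (1 + lam c) ^ 2)
  have h1 : ∑ f ∈ F, ∏ a, p a (f a) ≤ ∑ f : α → ι, (∏ a, p a (f a)) *
        (if ∀ i ∈ A, ∀ j, j ∉ A → f i = f j → f i ∉ S then (1 : ℝ) else 0) := by
    refine le_trans (Finset.sum_le_sum ?_) (Finset.sum_le_univ_sum_of_nonneg ?_)
    · intro f hf
      have h2 : ∀ i ∈ A, ∀ j, j ∉ A → f i = f j → f i ∉ S := by
        intro i hi j hj hij
        exact hF f hf i j (fun h => hj (h ▸ hi)) hij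
      rw [if_pos h2, mul_one]
    · intro f
      apply mul_nonneg (Finset.prod_nonneg fun a _ => hp a (f a))
      split_ifs <;> norm_num
  refine h1.trans ((noColl_set p hp hp1 S A).trans ?_)
  have h3 : ∏ c ∈ S, (1 - (1 - Real.exp (-∑ a ∈ A, p a c)) *
      (1 - Real.exp (-∑ b ∈ Aᶜ, p b c))) ≤
      ∏ c ∈ S, Real.exp (-((∑ a ∈ A, p a c) * (∑ b ∈ Aᶜ, p b c) / (1 + lam c) ^ 2)) := by
    apply Finset.prod_le_prod
    · intro c _
      have e1 : 0 ≤ ∑ a ∈ A, p a c := Finset.sum_nonneg fun a _ => hp a c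
      have e2 : 0 ≤ ∑ b ∈ Aᶜ, p b c := Finset.sum_nonneg fun a _ => hp a c
      have e3 : Real.exp (-∑ a ∈ A, p a c) ≤ 1 := Real.exp_le_one_iff.2 (by linarith)
      have e4 : Real.exp (-∑ b ∈ Aᶜ, p b c) ≤ 1 := Real.exp_le_one_iff.2 (by linarith)
      have e5 := Real.exp_pos (-∑ a ∈ A, p a c)
      have e6 := Real.exp_pos (-∑ b ∈ Aᶜ, p b c)
      nlinarith
    · intro c _
      have e1 : 0 ≤ ∑ a ∈ A, p a c := Finset.sum_nonneg fun a _ => hp a c
      have e2 : 0 ≤ ∑ b ∈ Aᶜ, p b c := Finset.sum_nonneg fun a _ => hp a c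
      have e3 : ∑ a ∈ A, p a c ≤ lam c :=
        Finset.sum_le_sum_of_subset_of_nonneg (Finset.subset_univ A) fun a _ _ => hp a c
      have e4 : ∑ b ∈ Aᶜ, p b c ≤ lam c :=
        Finset.sum_le_sum_of_subset_of_nonneg (Finset.subset_univ Aᶜ) fun a _ _ => hp a c
      have e5 := one_sub_exp_ge e1 e3
      have e6 := one_sub_exp_ge e2 e4
      have e7 : 0 < 1 + lam c := by linarith [hlam0 c]
      have e8 : (∑ a ∈ A, p a c) * (∑ b ∈ Aᶜ, p b c) / (1 + lam c) ^ 2 =
          ((∑ a ∈ A, p a c) / (1 + lam c)) * ((∑ b ∈ Aᶜ, p b c) / (1 + lam c)) := by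
        field_simp
      have e9 : ((∑ a ∈ A, p a c) / (1 + lam c)) * ((∑ b ∈ Aᶜ, p b c) / (1 + lam c)) ≤
          (1 - Real.exp (-∑ a ∈ A, p a c)) * (1 - Real.exp (-∑ b ∈ Aᶜ, p b c)) :=
        mul_le_mul e5 e6 (div_nonneg e2 e7.le) (le_trans (div_nonneg e1 e7.le) e5)
      have e10 := Real.add_one_le_exp
        (-((∑ a ∈ A, p a c) * (∑ b ∈ Aᶜ, p b c) / (1 + lam c) ^ 2))
      rw [e8] at e10 ⊢
      linarith
  refine h3.trans ?_
  rw [← Real.exp_sum]
  apply Real.exp_le_exp.2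
  rw [Finset.sum_neg_distrib, neg_le_neg_iff]
  have h4 : ∑ i ∈ A, ∑ j ∈ Aᶜ, ∑ c ∈ S, p i c * p j c / (1 + lam c) ^ 2 =
      ∑ c ∈ S, (∑ a ∈ A, p a c) * (∑ b ∈ Aᶜ, p b c) / (1 + lam c) ^ 2 := by
    have e1 : ∀ i ∈ A, ∑ j ∈ Aᶜ, ∑ c ∈ S, p i c * p j c / (1 + lam c) ^ 2 =
        ∑ c ∈ S, ∑ j ∈ Aᶜ, p i c * p j c / (1 + lam c) ^ 2 := fun i _ => Finset.sum_comm
    rw [Finset.sum_congr rfl e1, Finset.sum_comm]
    apply Finset.sum_congr rfl
    intro c _
    rw [Finset.sum_mul_sum, Finset.sum_div]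
    apply Finset.sum_congr rfl
    intro i _
    rw [Finset.sum_div]
  have h5 : ∑ i, ∑ j ∈ Finset.univ.erase i, ∑ c ∈ S, p i c * p j c / (1 + lam c) ^ 2 =
      ∑ c ∈ S, (lam c ^ 2 - ∑ a, p a c ^ 2) / (1 + lam c) ^ 2 := by
    have e1 : ∀ i, ∑ j ∈ Finset.univ.erase i, ∑ c ∈ S, p i c * p j c / (1 + lam c) ^ 2 =
        ∑ c ∈ S, (p i c * lam c - p i c ^ 2) / (1 + lam c) ^ 2 := by
      intro i
      rw [Finset.sum_comm]
      apply Finset.sum_congr rfl
      intro c _
      rw [← Finset.sum_div, ← Finset.mul_sum]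
      congr 1
      have := Finset.add_sum_erase Finset.univ (fun a => p a c) (Finset.mem_univ i)
      have e2 : ∑ j ∈ Finset.univ.erase i, p j c = lam c - p i c := by
        rw [hlam]
        simp only
        linarith
      rw [e2]
      ring
    rw [Finset.sum_congr rfl fun i _ => e1 i, Finset.sum_comm]
    apply Finset.sum_congr rfl
    intro c _
    rw [← Finset.sum_div, Finset.sum_sub_distrib, ← Finset.sum_mul]
    congr 2
    rw [hlam]
    ring
  rw [h4, h5] at hA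
  exact hA

end Pool.Agent.STw
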