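import Mathlib

/-!
MP_eb68d6_co, smoothed twins, module C.

Twins from cells with two points in different columns and rows.
-/

namespace Pool.Agent.STw

open Finset

/-- the configuration of the points `(x i, y i)` contains twins of length `k`: two disjoint
subsequences, listed by `F` and `G` from left to right, with the same pattern -/
def HasTwins {n : ℕ} (x y : Fin n → ℝ) (k : ℕ) : Prop :=
  ∃ F G : Fin k → Fin n, (∀ a b, F a ≠ G b) ∧ (∀ a b, a < b → x (F a) < x (F b)) ∧
    (∀ a b, a < b → x (G a) < x (G b)) ∧ (∀ a b, a ≠ b → y (F a) ≠ y (F b)) ∧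
    (∀ a b, y (F a) < y (F b) ↔ y (G a) < y (G b))

/-- `M` is a family of cells with two points, in different columns and rows -/
def Fam {α A B : Type*} (f : α → A × B) (M : Finset (A × B)) : Prop :=
  (∀ c ∈ M, ∃ i j, i ≠ j ∧ f i = c ∧ f j = c) ∧
    (∀ c ∈ M, ∀ d ∈ M, c.1 = d.1 → c = d) ∧ (∀ c ∈ M, ∀ d ∈ M, c.2 = d.2 → c = d)

theorem exists_fam {α A B : Type*} [Fintype A] [Fintype B] [DecidableEq A] [DecidableEq B]
    (f : α → A × B) :
    ∃ M : Finset (A × B), Fam f M ∧
      ∀ i j, i ≠ j → f i = f j → ∃ c ∈ M, c.1 = (f i).1 ∨ c.2 = (f i).2 := by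
  classical
  obtain ⟨M, hM, hmax⟩ := Finset.exists_max_image
    (Finset.univ.filter fun M : Finset (A × B) => Fam f M) Finset.card
    ⟨∅, by
      rw [Finset.mem_filter]
      refine ⟨Finset.mem_univ _, ?_, ?_, ?_⟩ <;> intro c hc <;>
        exact absurd hc (Finset.notMem_empty c)⟩
  rw [Finset.mem_filter] at hM
  obtain ⟨_, h1, h2, h3⟩ := hM
  refine ⟨M, ⟨h1, h2, h3⟩, ?_⟩
  intro i j hij hf
  by_contra hcon
  push Not at hcon
  have h4 : f i ∉ M := fun h => (hcon (f i) h).1 rfl
  have h5 : Fam f (insert (f i) M) := by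
    refine ⟨?_, ?_, ?_⟩
    · intro c hc
      rw [Finset.mem_insert] at hc
      rcases hc with hc | hc
      · exact ⟨i, j, hij, hc.symm, hf ▸ hc.symm⟩
      · exact h1 c hc
    · intro c hc d hd hcd
      rw [Finset.mem_insert] at hc hd
      rcases hc with hc | hc <;> rcases hd with hd | hd
      · rw [hc, hd]
      · exact absurd (hc ▸ hcd.symm) (hcon d hd).1
      · exact absurd (hd ▸ hcd) (hcon c hc).1
      · exact h2 c hc d hd hcd
    · intro c hc d hd hcd
      rw [Finset.mem_insert] at hc hd
      rcases hc with hc | hc <;> rcases hd with hd | hd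
      · rw [hc, hd]
      · exact absurd (hc ▸ hcd.symm) (hcon d hd).2
      · exact absurd (hd ▸ hcd) (hcon c hc).2
      · exact h3 c hc d hd hcd
  have h6 := hmax (insert (f i) M) (by
    rw [Finset.mem_filter]
    exact ⟨Finset.mem_univ _, h5⟩)
  rw [Finset.card_insert_of_notMem h4] at h6
  omega

theorem twins_of_fam {n : ℕ} {A B : Type*} [LinearOrder A] [LinearOrder B]
    (x y : Fin n → ℝ) (f : Fin n → A × B)
    (hx : ∀ i j, (f i).1 < (f j).1 → x i < x j) (hy : ∀ i j, (f i).2 < (f j).2 → y i < y j)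
    (M : Finset (A × B)) (hM : Fam f M) : HasTwins x y M.card := by
  classical
  obtain ⟨h1, h2, h3⟩ := hM
  have hcard : (M.image Prod.fst).card = M.card := by
    apply Finset.card_image_of_injOn
    intro c hc d hd hcd
    exact h2 c hc d hd hcd
  let e := (M.image Prod.fst).orderIsoOfFin hcard
  have h4 : ∀ t : Fin M.card, ∃ c ∈ M, c.1 = (e t : A) := by
    intro t
    have := (e t).2
    rw [Finset.mem_image] at this
    exact this
  choose c hc hce using h4
  have h5 : ∀ t : Fin M.card, ∃ i j, i ≠ j ∧ f i = c t ∧ f j = c t := fun t => h1 (c t) (hc t)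
  choose F G hFG hF hG using h5
  have hlt : ∀ a b : Fin M.card, a < b → (c a).1 < (c b).1 := by
    intro a b hab
    rw [hce a, hce b]
    exact e.strictMono hab
  have hne : ∀ a b : Fin M.card, a ≠ b → (c a).2 ≠ (c b).2 := by
    intro a b hab h
    have h6 := h3 (c a) (hc a) (c b) (hc b) h
    rcases lt_or_gt_of_ne hab with h7 | h7
    · exact absurd (congrArg Prod.fst h6) (hlt a b h7).ne
    · exact absurd (congrArg Prod.fst h6) (hlt b a h7).ne'
  have hcne : ∀ a b : Fin M.card, a ≠ b → c a ≠ c b := by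
    intro a b hab h
    exact hne a b hab (congrArg Prod.snd h)
  have hyF : ∀ a b, (c a).2 < (c b).2 → y (F a) < y (F b) := by
    intro a b h
    apply hy
    rw [hF a, hF b]
    exact h
  have hyG : ∀ a b, (c a).2 < (c b).2 → y (G a) < y (G b) := by
    intro a b h
    apply hy
    rw [hG a, hG b]
    exact h
  refine ⟨F, G, ?_, ?_, ?_, ?_, ?_⟩
  · intro a b h
    by_cases hab : a = b
    · rw [hab] at h
      exact hFG b h
    · apply hcne a b hab
      rw [← hF a, ← hG b, h]
  · intro a b hab
    apply hx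
    rw [hF a, hF b]
    exact hlt a b hab
  · intro a b hab
    apply hx
    rw [hG a, hG b]
    exact hlt a b hab
  · intro a b hab
    rcases lt_or_gt_of_ne (hne a b hab) with h | h
    · exact (hyF a b h).ne
    · exact (hyF b a h).ne'
  · intro a b
    by_cases hab : a = b
    · rw [hab]
      simp
    · rcases lt_or_gt_of_ne (hne a b hab) with h | h
      · exact ⟨fun _ => hyG a b h, fun _ => hyF a b h⟩
      · exact ⟨fun h2 => absurd h2 (hyF b a h).le.not_gt,
          fun h2 => absurd h2 (hyG b a h).le.not_gt⟩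

end Pool.Agent.STw
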