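import Pool.Agent.STw.B
import Pool.Agent.STw.C

/-!
MP_eb68d6_co, smoothed twins, module D.

The discrete theorem: independent random cells of an `m x m` grid, `m` about `n ^ (2/3)`.
-/

namespace Pool.Agent.STw

open Finset

/-- number of small subsets -/
theorem card_small {m : ℕ} {N : ℝ} (hN : 0 < N) (hm : (m : ℝ) ≤ 2 * N) :
    (((Finset.univ : Finset (Finset (Fin m))).filter
      fun A => (A.card : ℝ) ≤ N / 400000).card : ℝ) ≤ Real.exp (3 * N / 32768) := by
  set P := (Finset.univ : Finset (Finset (Fin m))).filter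
      fun A => (A.card : ℝ) ≤ N / 400000 with hP
  have h1 : ∑ A : Finset (Fin m), (1 / 32768 : ℝ) ^ A.card = (1 / 32768 + 1) ^ m := by
    have := Finset.prod_add (fun _ : Fin m => (1 / 32768 : ℝ)) (fun _ => 1) Finset.univ
    simp only [Finset.prod_const, Finset.card_univ, Fintype.card_fin, one_pow, mul_one,
      Finset.powerset_univ] at this
    exact this.symm
  have h2 : (P.card : ℝ) * Real.exp (-(10.4 * (N / 400000))) ≤
      ∑ A : Finset (Fin m), (1 / 32768 : ℝ) ^ A.card := by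
    have h3 : ∑ _A ∈ P, Real.exp (-(10.4 * (N / 400000))) ≤
        ∑ A ∈ P, (1 / 32768 : ℝ) ^ A.card := by
      apply Finset.sum_le_sum
      intro A hA
      have h4 : (A.card : ℝ) ≤ N / 400000 := (Finset.mem_filter.1 hA).2
      have h5 : (1 / 32768 : ℝ) = Real.exp (-(15 * Real.log 2)) := by
        rw [Real.exp_neg, mul_comm, Real.exp_mul, Real.exp_log (by norm_num)]
        norm_num
      rw [h5, ← Real.exp_nat_mul]
      apply Real.exp_le_exp.2
      have h6 : Real.log 2 < 0.6931471808 := Real.log_two_lt_d9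
      have h7 : 0 < Real.log 2 := Real.log_pos (by norm_num)
      have h8 : (0 : ℝ) ≤ A.card := Nat.cast_nonneg _
      nlinarith
    rw [Finset.sum_const, nsmul_eq_mul] at h3
    refine h3.trans ?_
    apply Finset.sum_le_sum_of_subset_of_nonneg (Finset.subset_univ _)
    intro A _ _
    positivity
  rw [h1] at h2
  have h9 : (1 / 32768 + 1 : ℝ) ^ m ≤ Real.exp (N / 16384) := by
    have e1 : (1 / 32768 + 1 : ℝ) ≤ Real.exp (1 / 32768) := Real.add_one_le_exp _
    calc (1 / 32768 + 1 : ℝ) ^ m ≤ (Real.exp (1 / 32768)) ^ m :=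
          pow_le_pow_left₀ (by norm_num) e1 m
      _ = Real.exp (m * (1 / 32768)) := by rw [← Real.exp_nat_mul]
      _ ≤ Real.exp (N / 16384) := by
          apply Real.exp_le_exp.2
          linarith
  have h10 : (P.card : ℝ) * Real.exp (-(10.4 * (N / 400000))) ≤ Real.exp (N / 16384) :=
    h2.trans h9
  have h11 : Real.exp (-(10.4 * (N / 400000))) * Real.exp (10.4 * (N / 400000)) = 1 := by
    rw [← Real.exp_add]
    simp
  have h12 : (P.card : ℝ) ≤ Real.exp (N / 16384) * Real.exp (10.4 * (N / 400000)) := by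
    calc (P.card : ℝ) = (P.card : ℝ) * Real.exp (-(10.4 * (N / 400000))) *
          Real.exp (10.4 * (N / 400000)) := by rw [mul_assoc, h11, mul_one]
      _ ≤ _ := mul_le_mul_of_nonneg_right h10 (Real.exp_pos _).le
  refine h12.trans ?_
  rw [← Real.exp_add]
  apply Real.exp_le_exp.2
  linarith

/-- pointwise lower bound -/
theorem cell_bound {l s d q L : ℝ} (hl : 0 ≤ l) (hlL : l ≤ L) (hs : 0 ≤ s) (hsL : 2 * s * L ≤ 1)
    (hd : 0 ≤ d) (hq : q ≤ l ^ 2 / 2 + d * l) :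
    (2 * s * l - s ^ 2) / 8 - d * l ≤ (l ^ 2 - q) / (1 + l) ^ 2 := by
  have h0 : (0 : ℝ) < (1 + l) ^ 2 := by positivity
  rw [le_div_iff₀ h0]
  have h1 : (2 * s * l - s ^ 2) / 8 * (1 + l) ^ 2 ≤ l ^ 2 / 2 := by
    by_cases h : l ≤ 1
    · have h2 : (1 + l) ^ 2 ≤ 4 := by nlinarith
      by_cases h3 : 0 ≤ 2 * s * l - s ^ 2
      · have h4 : 2 * s * l - s ^ 2 ≤ l ^ 2 := by nlinarith [sq_nonneg (l - s)]
        nlinarith
      · push Not at h3
        have : (2 * s * l - s ^ 2) / 8 * (1 + l) ^ 2 ≤ 0 := by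
          apply mul_nonpos_of_nonpos_of_nonneg <;> [linarith; positivity]
        nlinarith [sq_nonneg l]
    · push Not at h
      have h2 : (1 + l) ^ 2 ≤ 4 * l ^ 2 := by nlinarith
      have h3 : 2 * s * l ≤ 1 := by nlinarith
      have h4 : 2 * s * l - s ^ 2 ≤ 1 := by nlinarith [sq_nonneg s]
      nlinarith
  have h5 : d * l ≤ d * l * (1 + l) ^ 2 := by
    have : (1 : ℝ) ≤ (1 + l) ^ 2 := by nlinarith
    have h6 : 0 ≤ d * l := mul_nonneg hd hl
    nlinarith
  nlinarith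

/-- mass of a large rectangle -/
theorem mass_rect {m : ℕ} (lam : Fin m × Fin m → ℝ) (hl : ∀ c, 0 ≤ lam c) (L : ℝ)
    (hcol : ∀ a, ∑ b, lam (a, b) ≤ L) (hrow : ∀ b, ∑ a, lam (a, b) ≤ L)
    (A B : Finset (Fin m)) :
    ∑ c, lam c - (A.card + B.card) * L ≤ ∑ c ∈ Aᶜ ×ˢ Bᶜ, lam c := by
  have h1 : ∑ c, lam c ≤ ∑ c ∈ Aᶜ ×ˢ Bᶜ, lam c + ∑ c ∈ A ×ˢ Finset.univ, lam c +
      ∑ c ∈ Finset.univ ×ˢ B, lam c := by
    have e : ∀ T : Finset (Fin m × Fin m), ∑ c ∈ T, lam c = ∑ c, if c ∈ T then lam c else 0 := by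
      intro T
      rw [Finset.sum_ite_mem, Finset.univ_inter]
    rw [e (Aᶜ ×ˢ Bᶜ), e (A ×ˢ Finset.univ), e (Finset.univ ×ˢ B), ← Finset.sum_add_distrib,
      ← Finset.sum_add_distrib]
    apply Finset.sum_le_sum
    intro c _
    have hc := hl c
    by_cases ha : c.1 ∈ A
    · have : c ∈ A ×ˢ (Finset.univ : Finset (Fin m)) := by
        rw [Finset.mem_product]
        exact ⟨ha, Finset.mem_univ _⟩
      rw [if_pos this]
      have e1 : (0 : ℝ) ≤ if c ∈ Aᶜ ×ˢ Bᶜ then lam c else 0 := by split_ifs <;> simp [hc]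
      have e2 : (0 : ℝ) ≤ if c ∈ Finset.univ ×ˢ B then lam c else 0 := by split_ifs <;> simp [hc]
      linarith
    · by_cases hb : c.2 ∈ B
      · have : c ∈ (Finset.univ : Finset (Fin m)) ×ˢ B := by
          rw [Finset.mem_product]
          exact ⟨Finset.mem_univ _, hb⟩
        rw [if_pos this]
        have e1 : (0 : ℝ) ≤ if c ∈ Aᶜ ×ˢ Bᶜ then lam c else 0 := by split_ifs <;> simp [hc]
        have e2 : (0 : ℝ) ≤ if c ∈ A ×ˢ Finset.univ then lam c else 0 := by
          split_ifs <;> simp [hc]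
        linarith
      · have : c ∈ Aᶜ ×ˢ Bᶜ := by
          rw [Finset.mem_product, Finset.mem_compl, Finset.mem_compl]
          exact ⟨ha, hb⟩
        rw [if_pos this]
        have e1 : (0 : ℝ) ≤ if c ∈ Finset.univ ×ˢ B then lam c else 0 := by
          split_ifs <;> simp [hc]
        have e2 : (0 : ℝ) ≤ if c ∈ A ×ˢ Finset.univ then lam c else 0 := by
          split_ifs <;> simp [hc]
        linarith
  have h2 : ∑ c ∈ A ×ˢ (Finset.univ : Finset (Fin m)), lam c ≤ A.card * L := by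
    rw [Finset.sum_product]
    calc ∑ a ∈ A, ∑ b, lam (a, b) ≤ ∑ _a ∈ A, L := Finset.sum_le_sum fun a _ => hcol a
      _ = A.card * L := by rw [Finset.sum_const, nsmul_eq_mul]
  have h3 : ∑ c ∈ (Finset.univ : Finset (Fin m)) ×ˢ B, lam c ≤ B.card * L := by
    rw [Finset.sum_product_right]
    calc ∑ b ∈ B, ∑ a, lam (a, b) ≤ ∑ _b ∈ B, L := Finset.sum_le_sum fun b _ => hrow b
      _ = B.card * L := by rw [Finset.sum_const, nsmul_eq_mul]
  linarith

/-- `DISCRETE THEOREM` -/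
theorem discrete_main {n m : ℕ} (hn : 0 < n) (p : Fin n → Fin m × Fin m → ℝ)
    (hp : ∀ i c, 0 ≤ p i c) (hp1 : ∀ i, ∑ c, p i c = 1) (N : ℝ) (hN : 0 < N)
    (hN3 : N ^ 3 = (n : ℝ) ^ 2) (hmN : N ≤ m) (hmN2 : (m : ℝ) ≤ 2 * N)
    (hcol : ∀ a, ∑ b, ∑ i, p i (a, b) ≤ 6 * n / m)
    (hrow : ∀ b, ∑ a, ∑ i, p i (a, b) ≤ 6 * n / m)
    (d : ℝ) (hd0 : 0 ≤ d) (hd : d ≤ N / (128 * n))
    (hdiag : ∀ c, ∑ i, p i c ^ 2 ≤ (∑ i, p i c) ^ 2 / 2 + d * ∑ i, p i c)
    (F : Finset (Fin n → Fin m × Fin m))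
    (hF : ∀ f ∈ F, ¬ ∃ M, Fam f M ∧ N / 400000 ≤ M.card) :
    ∑ f ∈ F, ∏ i, p i (f i) ≤ Real.exp (-(N / 4096)) := by
  classical
  have hn' : (0 : ℝ) < n := by exact_mod_cast hn
  have hm' : (0 : ℝ) < m := lt_of_lt_of_le hN hmN
  set lam : Fin m × Fin m → ℝ := fun c => ∑ i, p i c with hlam
  have hlam0 : ∀ c, 0 ≤ lam c := fun c => Finset.sum_nonneg fun i _ => hp i c
  have htot : ∑ c, lam c = n := by
    rw [hlam]
    simp only
    rw [Finset.sum_comm, Finset.sum_congr rfl fun i _ => hp1 i]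
    simp
  set s : ℝ := N / (16 * n) with hs
  have hs0 : 0 ≤ s := by positivity
  -- bound for one rectangle
  have key : ∀ A B : Finset (Fin m), (A.card : ℝ) ≤ N / 400000 → (B.card : ℝ) ≤ N / 400000 →
      ∑ f ∈ F.filter (fun f => NoColl f (Aᶜ ×ˢ Bᶜ)), ∏ i, p i (f i) ≤
        Real.exp (-(N / 2048)) := by
    intro A B hA hB
    refine (noColl_exp p hp hp1 (Aᶜ ×ˢ Bᶜ) _ fun f hf => (Finset.mem_filter.1 hf).2).trans ?_
    apply Real.exp_le_exp.2
    rw [neg_le_neg_iff]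
    have h1 : ∀ c ∈ Aᶜ ×ˢ Bᶜ, (2 * s * lam c - s ^ 2) / 8 - d * lam c ≤
        ((∑ a, p a c) ^ 2 - ∑ a, p a c ^ 2) / (1 + ∑ a, p a c) ^ 2 := by
      intro c _
      have h2 : lam c ≤ 6 * n / m := by
        refine le_trans ?_ (hcol c.1)
        exact Finset.single_le_sum (f := fun b => lam (c.1, b)) (fun b _ => hlam0 (c.1, b))
          (Finset.mem_univ c.2)
      refine cell_bound (hlam0 c) h2 hs0 ?_ hd0 (hdiag c)
      rw [hs]
      have : 2 * (N / (16 * (n : ℝ))) * (6 * n / m) = (12 / 16) * (N / m) := by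
        field_simp
        ring
      rw [this]
      have : N / m ≤ 1 := (div_le_one hm').2 hmN
      linarith
    have h3 := Finset.sum_le_sum h1
    have h4 : ∑ c ∈ Aᶜ ×ˢ Bᶜ, ((2 * s * lam c - s ^ 2) / 8 - d * lam c) =
        (s / 4 - d) * ∑ c ∈ Aᶜ ×ˢ Bᶜ, lam c - ((Aᶜ ×ˢ Bᶜ).card : ℝ) * (s ^ 2 / 8) := by
      have : ∀ c ∈ Aᶜ ×ˢ Bᶜ, ((2 * s * lam c - s ^ 2) / 8 - d * lam c) =
          (s / 4 - d) * lam c - s ^ 2 / 8 := by
        intro c _
        ring
      rw [Finset.sum_congr rfl this, Finset.sum_sub_distrib, ← Finset.mul_sum, Finset.sum_const,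
        nsmul_eq_mul]
    have h5 : (n : ℝ) / 2 ≤ ∑ c ∈ Aᶜ ×ˢ Bᶜ, lam c := by
      have h6 := mass_rect lam hlam0 (6 * n / m) hcol hrow A B
      rw [htot] at h6
      have h7 : (A.card + B.card : ℝ) * (6 * n / m) ≤ n / 2 := by
        have h8 : (A.card + B.card : ℝ) ≤ m / 200000 := by
          have : N / 400000 ≤ m / 400000 := by linarith
          linarith
        have h9 : (0 : ℝ) ≤ 6 * n / m := by positivity
        calc (A.card + B.card : ℝ) * (6 * n / m) ≤ m / 200000 * (6 * n / m) :=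
              mul_le_mul_of_nonneg_right h8 h9
          _ = 6 * n / 200000 := by field_simp
          _ ≤ n / 2 := by linarith
      linarith
    have h10 : (((Aᶜ ×ˢ Bᶜ).card : ℕ) : ℝ) ≤ (m : ℝ) ^ 2 := by
      have : (Aᶜ ×ˢ Bᶜ).card ≤ m * m := by
        calc (Aᶜ ×ˢ Bᶜ).card ≤ (Finset.univ : Finset (Fin m × Fin m)).card :=
              Finset.card_le_card (Finset.subset_univ _)
          _ = m * m := by simp
      have h11 : (((Aᶜ ×ˢ Bᶜ).card : ℕ) : ℝ) ≤ ((m * m : ℕ) : ℝ) := by exact_mod_cast this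
      rw [Nat.cast_mul] at h11
      nlinarith
    have hsd : s / 8 ≤ s / 4 - d := by
      have : d ≤ s / 8 := by
        rw [hs]
        have : N / (16 * (n : ℝ)) / 8 = N / (128 * n) := by
          field_simp
          norm_num
        rw [this]
        exact hd
      linarith
    have h12 : s / 8 * (n / 2) ≤ (s / 4 - d) * ∑ c ∈ Aᶜ ×ˢ Bᶜ, lam c := by
      apply mul_le_mul hsd h5 (by positivity)
      linarith
    have h13 : ((Aᶜ ×ˢ Bᶜ).card : ℝ) * (s ^ 2 / 8) ≤ (2 * N) ^ 2 * (s ^ 2 / 8) := by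
      apply mul_le_mul_of_nonneg_right _ (by positivity)
      refine h10.trans ?_
      exact pow_le_pow_left₀ hm'.le hmN2 2
    have h14 : s / 8 * (n / 2) = N / 256 := by
      rw [hs]
      field_simp
      norm_num
    have h15 : (2 * N) ^ 2 * (s ^ 2 / 8) = N / 512 := by
      rw [hs]
      have h16 : (2 * N) ^ 2 * ((N / (16 * (n : ℝ))) ^ 2 / 8) = N * N ^ 3 / (512 * (n : ℝ) ^ 2) := by
        field_simp
        norm_num
      rw [h16, hN3]
      field_simp
    linarith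
  -- union bound
  set P := (Finset.univ : Finset (Finset (Fin m))).filter
      fun A => (A.card : ℝ) ≤ N / 400000 with hP
  have hcover : ∀ f ∈ F, ∃ AB ∈ P ×ˢ P, NoColl f (AB.1ᶜ ×ˢ AB.2ᶜ) := by
    intro f hf
    obtain ⟨M, hM, hM2⟩ := exists_fam f
    have h1 : (M.card : ℝ) < N / 400000 := by
      by_contra hcon
      push Not at hcon
      exact hF f hf ⟨M, hM, hcon⟩
    refine ⟨(M.image Prod.fst, M.image Prod.snd), ?_, ?_⟩
    · rw [Finset.mem_product, hP, Finset.mem_filter, Finset.mem_filter]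
      have h2 : ((M.image Prod.fst).card : ℝ) ≤ M.card := by
        exact_mod_cast Finset.card_image_le
      have h3 : ((M.image Prod.snd).card : ℝ) ≤ M.card := by
        exact_mod_cast Finset.card_image_le
      exact ⟨⟨Finset.mem_univ _, by linarith⟩, ⟨Finset.mem_univ _, by linarith⟩⟩
    · intro i j hij hfij hS
      rw [Finset.mem_product, Finset.mem_compl, Finset.mem_compl] at hS
      obtain ⟨c, hc, h4⟩ := hM2 i j hij hfij
      rcases h4 with h4 | h4
      · exact hS.1 (h4 ▸ Finset.mem_image_of_mem Prod.fst hc)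
      · exact hS.2 (h4 ▸ Finset.mem_image_of_mem Prod.snd hc)
  have hprod0 : ∀ f : Fin n → Fin m × Fin m, 0 ≤ ∏ i, p i (f i) := fun f =>
    Finset.prod_nonneg fun i _ => hp i (f i)
  have h20 : ∑ f ∈ F, ∏ i, p i (f i) ≤
      ∑ AB ∈ P ×ˢ P, ∑ f ∈ F.filter (fun f => NoColl f (AB.1ᶜ ×ˢ AB.2ᶜ)), ∏ i, p i (f i) := by
    simp_rw [Finset.sum_filter]
    rw [Finset.sum_comm]
    apply Finset.sum_le_sum
    intro f hf
    obtain ⟨AB, hAB, hno⟩ := hcover f hf
    have h21 := Finset.single_le_sum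
      (f := fun AB : Finset (Fin m) × Finset (Fin m) =>
        if NoColl f (AB.1ᶜ ×ˢ AB.2ᶜ) then ∏ i, p i (f i) else 0)
      (fun AB _ => by split_ifs <;> simp [hprod0 f]) hAB
    simp only [if_pos hno] at h21
    exact h21
  refine h20.trans ?_
  have h22 : ∑ AB ∈ P ×ˢ P, ∑ f ∈ F.filter (fun f => NoColl f (AB.1ᶜ ×ˢ AB.2ᶜ)),
      ∏ i, p i (f i) ≤ ∑ _AB ∈ P ×ˢ P, Real.exp (-(N / 2048)) := by
    apply Finset.sum_le_sum
    intro AB hAB
    rw [Finset.mem_product] at hAB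
    exact key AB.1 AB.2 (Finset.mem_filter.1 hAB.1).2 (Finset.mem_filter.1 hAB.2).2
  refine h22.trans ?_
  rw [Finset.sum_const, Finset.card_product, nsmul_eq_mul, Nat.cast_mul]
  have h23 : (P.card : ℝ) ≤ Real.exp (3 * N / 32768) := card_small hN hmN2
  calc (P.card : ℝ) * P.card * Real.exp (-(N / 2048))
      ≤ Real.exp (3 * N / 32768) * Real.exp (3 * N / 32768) * Real.exp (-(N / 2048)) := by
        apply mul_le_mul_of_nonneg_right _ (Real.exp_pos _).le
        exact mul_le_mul h23 h23 (Nat.cast_nonneg _) (Real.exp_pos _).le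
    _ = Real.exp (3 * N / 32768 + 3 * N / 32768 + -(N / 2048)) := by
        rw [Real.exp_add, Real.exp_add]
    _ ≤ Real.exp (-(N / 4096)) := by
        apply Real.exp_le_exp.2
        linarith

end Pool.Agent.STw
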