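import Pool.Agent.STw.D

/-!
MP_eb68d6_co, smoothed twins, module E.

Transfer of the discrete theorem to independent random points of the plane.
-/

namespace Pool.Agent.STw

open Finset MeasureTheory

/-- the cell of the point `(X z, Y z)` -/
def cellOf {m : ℕ} (cx cy : ℝ → Fin m) (X Y : ℝ × ℝ → ℝ) (z : ℝ × ℝ) : Fin m × Fin m :=
  (cx (X z), cy (Y z))

theorem col_sum {m : ℕ} (μ : Measure (ℝ × ℝ)) [IsProbabilityMeasure μ] (g : ℝ × ℝ → Fin m × Fin m)
    (hg : Measurable g) (a : Fin m) :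
    ∑ b, (μ (g ⁻¹' {(a, b)})).toReal = (μ {z | (g z).1 = a}).toReal := by
  rw [← ENNReal.toReal_sum (fun b _ => measure_ne_top μ _)]
  congr 1
  have h1 := sum_measure_preimage_singleton (μ := μ) (f := g)
    (({a} : Finset (Fin m)) ×ˢ (Finset.univ : Finset (Fin m)))
    (fun y _ => hg (measurableSet_singleton y))
  rw [Finset.sum_product, Finset.sum_singleton] at h1
  rw [h1]
  congr 1
  ext z
  simp only [Finset.singleton_product, Finset.coe_map, Function.Embedding.coeFn_mk,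
    Finset.coe_univ, Set.image_univ, Set.mem_preimage, Set.mem_range, Set.mem_ofPred_eq]
  constructor
  · rintro ⟨y, hy⟩
    rw [← hy]
  · intro h
    exact ⟨(g z).2, by rw [← h]⟩

theorem row_sum {m : ℕ} (μ : Measure (ℝ × ℝ)) [IsProbabilityMeasure μ] (g : ℝ × ℝ → Fin m × Fin m)
    (hg : Measurable g) (b : Fin m) :
    ∑ a, (μ (g ⁻¹' {(a, b)})).toReal = (μ {z | (g z).2 = b}).toReal := by
  rw [← ENNReal.toReal_sum (fun b _ => measure_ne_top μ _)]
  congr 1
  have h1 := sum_measure_preimage_singleton (μ := μ) (f := g)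
    ((Finset.univ : Finset (Fin m)) ×ˢ ({b} : Finset (Fin m)))
    (fun y _ => hg (measurableSet_singleton y))
  rw [Finset.sum_product_right, Finset.sum_singleton] at h1
  rw [h1]
  congr 1
  ext z
  simp only [Finset.product_singleton, Finset.coe_map, Function.Embedding.coeFn_mk,
    Finset.coe_univ, Set.image_univ, Set.mem_preimage, Set.mem_range, Set.mem_ofPred_eq]
  constructor
  · rintro ⟨y, hy⟩
    rw [← hy]
  · intro h
    exact ⟨(g z).1, by rw [← h]⟩

theorem tot_sum {m : ℕ} (μ : Measure (ℝ × ℝ)) [IsProbabilityMeasure μ] (g : ℝ × ℝ → Fin m × Fin m)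
    (hg : Measurable g) : ∑ c, (μ (g ⁻¹' {c})).toReal = 1 := by
  rw [← ENNReal.toReal_sum (fun b _ => measure_ne_top μ _)]
  have h1 := sum_measure_preimage_singleton (μ := μ) (f := g)
    (Finset.univ : Finset (Fin m × Fin m)) (fun y _ => hg (measurableSet_singleton y))
  rw [h1]
  simp

/-- `TRANSFER` -/
theorem transfer {n m : ℕ} (hn : 0 < n) (μ : Fin n → Measure (ℝ × ℝ))
    [∀ i, IsProbabilityMeasure (μ i)] (X Y : Fin n → ℝ × ℝ → ℝ) (cx cy : ℝ → Fin m)
    (hcx : Monotone cx) (hcy : Monotone cy)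
    (hmeas : ∀ i, Measurable (cellOf cx cy (X i) (Y i)))
    (N : ℝ) (hN : 0 < N) (hN3 : N ^ 3 = (n : ℝ) ^ 2) (hmN : N ≤ m) (hmN2 : (m : ℝ) ≤ 2 * N)
    (hcol : ∀ a, ∑ i, (μ i {z | cx (X i z) = a}).toReal ≤ 6 * n / m)
    (hrow : ∀ b, ∑ i, (μ i {z | cy (Y i z) = b}).toReal ≤ 6 * n / m)
    (d : ℝ) (hd0 : 0 ≤ d) (hd : d ≤ N / (128 * n))
    (hdiag : ∀ c, ∑ i, (μ i (cellOf cx cy (X i) (Y i) ⁻¹' {c})).toReal ^ 2 ≤
      (∑ i, (μ i (cellOf cx cy (X i) (Y i) ⁻¹' {c})).toReal) ^ 2 / 2 +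
        d * ∑ i, (μ i (cellOf cx cy (X i) (Y i) ⁻¹' {c})).toReal) :
    Measure.pi μ {z : Fin n → ℝ × ℝ | ¬ ∃ k : ℕ, N / 400000 ≤ k ∧
      HasTwins (fun i => X i (z i)) (fun i => Y i (z i)) k} ≤
      ENNReal.ofReal (Real.exp (-(N / 4096))) := by
  classical
  set F : Finset (Fin n → Fin m × Fin m) :=
    Finset.univ.filter fun f => ¬ ∃ M, Fam f M ∧ N / 400000 ≤ (M.card : ℝ) with hF
  set p : Fin n → Fin m × Fin m → ℝ := fun i c =>
    (μ i (cellOf cx cy (X i) (Y i) ⁻¹' {c})).toReal with hp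
  have h1 : {z : Fin n → ℝ × ℝ | ¬ ∃ k : ℕ, N / 400000 ≤ k ∧
      HasTwins (fun i => X i (z i)) (fun i => Y i (z i)) k} ⊆
      ⋃ f ∈ F, Set.pi Set.univ fun i => cellOf cx cy (X i) (Y i) ⁻¹' {f i} := by
    intro z hz
    simp only [Set.mem_ofPred_eq] at hz
    rw [Set.mem_iUnion₂]
    refine ⟨fun i => cellOf cx cy (X i) (Y i) (z i), ?_, ?_⟩
    · rw [hF, Finset.mem_filter]
      refine ⟨Finset.mem_univ _, ?_⟩
      rintro ⟨M, hM, hM2⟩
      apply hz
      refine ⟨M.card, hM2, ?_⟩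
      refine twins_of_fam _ _ (fun i => cellOf cx cy (X i) (Y i) (z i)) ?_ ?_ M hM
      · intro i j hij
        exact hcx.reflect_lt hij
      · intro i j hij
        exact hcy.reflect_lt hij
    · intro i _
      rfl
  have h2 : ∀ f : Fin n → Fin m × Fin m,
      Measure.pi μ (Set.pi Set.univ fun i => cellOf cx cy (X i) (Y i) ⁻¹' {f i}) =
        ENNReal.ofReal (∏ i, p i (f i)) := by
    intro f
    rw [Measure.pi_pi, ENNReal.ofReal_prod_of_nonneg (fun i _ => ENNReal.toReal_nonneg)]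
    apply Finset.prod_congr rfl
    intro i _
    exact (ENNReal.ofReal_toReal (measure_ne_top (μ i) _)).symm
  have h3 : Measure.pi μ (⋃ f ∈ F, Set.pi Set.univ fun i => cellOf cx cy (X i) (Y i) ⁻¹' {f i}) ≤
      ENNReal.ofReal (∑ f ∈ F, ∏ i, p i (f i)) := by
    refine (measure_biUnion_finset_le F _).trans (le_of_eq ?_)
    rw [Finset.sum_congr rfl fun f _ => h2 f, ENNReal.ofReal_sum_of_nonneg]
    intro f _
    exact Finset.prod_nonneg fun i _ => ENNReal.toReal_nonneg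
  refine (measure_mono h1).trans (h3.trans (ENNReal.ofReal_le_ofReal ?_))
  refine discrete_main hn p (fun i c => ENNReal.toReal_nonneg) (fun i => tot_sum (μ i) _ (hmeas i))
    N hN hN3 hmN hmN2 ?_ ?_ d hd0 hd hdiag F ?_
  · intro a
    rw [Finset.sum_comm]
    have : ∀ i, ∑ b, p i (a, b) = (μ i {z | cx (X i z) = a}).toReal := by
      intro i
      exact col_sum (μ i) _ (hmeas i) a
    rw [Finset.sum_congr rfl fun i _ => this i]
    exact hcol a
  · intro b
    rw [Finset.sum_comm]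
    have : ∀ i, ∑ a, p i (a, b) = (μ i {z | cy (Y i z) = b}).toReal := by
      intro i
      exact row_sum (μ i) _ (hmeas i) b
    rw [Finset.sum_congr rfl fun i _ => this i]
    exact hrow b
  · intro f hf
    exact (Finset.mem_filter.1 hf).2

/-- the index of the strip of a point, strips of width `L` -/
noncomputable def strip (m : ℕ) [NeZero m] (L : ℝ) (x : ℝ) : Fin m :=
  ⟨min ⌊x / L⌋₊ (m - 1), by
    have : 0 < m := NeZero.pos m
    omega⟩

theorem strip_mono {m : ℕ} [NeZero m] {L : ℝ} (hL : 0 < L) : Monotone (strip m L) := by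
  intro x y hxy
  rw [strip, strip, Fin.le_def]
  have h1 : ⌊x / L⌋₊ ≤ ⌊y / L⌋₊ := Nat.floor_le_floor (div_le_div_of_nonneg_right hxy hL.le)
  simp only
  omega

theorem strip_meas {m : ℕ} [NeZero m] {L : ℝ} (hL : 0 < L) : Measurable (strip m L) :=
  (strip_mono hL).measurable

theorem strip_bounds {m : ℕ} [NeZero m] {L x : ℝ} (hL : 0 < L) (hx0 : 0 ≤ x) (hx1 : x ≤ m * L) {a : Fin m}
    (h : strip m L x = a) : (a : ℝ) * L ≤ x ∧ x ≤ ((a : ℝ) + 1) * L := by
  have hm : 0 < m := NeZero.pos m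
  have h1 : min ⌊x / L⌋₊ (m - 1) = (a : ℕ) := by
    rw [← h, strip]
  have h2 : 0 ≤ x / L := div_nonneg hx0 hL.le
  constructor
  · have h3 : (a : ℕ) ≤ ⌊x / L⌋₊ := by omega
    have h4 : ((a : ℕ) : ℝ) ≤ x / L := (Nat.le_floor_iff h2).1 h3
    rwa [le_div_iff₀ hL] at h4
  · rcases le_or_gt ⌊x / L⌋₊ (m - 1) with h3 | h3
    · have h4 : ⌊x / L⌋₊ = (a : ℕ) := by omega
      have h5 : x / L < (⌊x / L⌋₊ : ℝ) + 1 := Nat.lt_floor_add_one _
      rw [h4, div_lt_iff₀ hL] at h5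
      exact h5.le
    · have h4 : (a : ℕ) = m - 1 := by omega
      have h5 : ((a : ℕ) : ℝ) + 1 = m := by
        rw [h4]
        have : ((m - 1 + 1 : ℕ) : ℝ) = m := by
          congr 1
          omega
        rw [← this]
        push_cast
        ring
      rw [h5]
      exact hx1

end Pool.Agent.STw
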