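import Pool.Agent.STw.E

/-!
MP_eb68d6_co, smoothed twins, module F.

Uniform noise of range `R` on the positions and the values of a permutation.
-/

namespace Pool.Agent.STw

open Finset MeasureTheory

/-- the unit square with Lebesgue measure -/
noncomputable def unitSq : Measure (ℝ × ℝ) := (volume : Measure (ℝ × ℝ)).restrict (Set.Icc 0 1)

theorem Icc_prod : (Set.Icc (0 : ℝ × ℝ) 1) = Set.Icc (0 : ℝ) 1 ×ˢ Set.Icc (0 : ℝ) 1 := by
  rw [Set.Icc_prod_Icc]
  rfl

instance : IsProbabilityMeasure unitSq := by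
  constructor
  rw [unitSq, Measure.restrict_apply_univ, Icc_prod, Measure.volume_eq_prod, Measure.prod_prod]
  simp

/-- the square of a rectangle in the unit square -/
theorem unitSq_le {s : Set (ℝ × ℝ)} {a b c d : ℝ} (hab : a ≤ b) (hcd : c ≤ d)
    (hs : ∀ z ∈ s, z ∈ Set.Icc (0 : ℝ × ℝ) 1 → z.1 ∈ Set.Icc a b ∧ z.2 ∈ Set.Icc c d) :
    (unitSq s).toReal ≤ (b - a) * (d - c) := by
  have h1 : unitSq s ≤ ENNReal.ofReal ((b - a) * (d - c)) := by
    rw [unitSq, Measure.restrict_apply']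
    · have h2 : s ∩ Set.Icc (0 : ℝ × ℝ) 1 ⊆ Set.Icc a b ×ˢ Set.Icc c d := by
        intro z hz
        exact hs z hz.1 hz.2
      refine (measure_mono h2).trans (le_of_eq ?_)
      rw [Measure.volume_eq_prod, Measure.prod_prod, Real.volume_Icc, Real.volume_Icc,
        ENNReal.ofReal_mul (by linarith)]
    · exact measurableSet_Icc
  exact ENNReal.toReal_le_of_le_ofReal (mul_nonneg (by linarith) (by linarith)) h1

theorem mem_sq {z : ℝ × ℝ} (hz : z ∈ Set.Icc (0 : ℝ × ℝ) 1) :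
    (0 ≤ z.1 ∧ z.1 ≤ 1) ∧ (0 ≤ z.2 ∧ z.2 ≤ 1) := by
  rw [Icc_prod] at hz
  exact ⟨hz.1, hz.2⟩

/-- number of indices in an interval -/
theorem count_le {n : ℕ} {u v : ℝ} (hu : u ≤ v) (hv : 0 ≤ v) :
    (((Finset.univ : Finset (Fin n)).filter fun j : Fin n => u ≤ ((j : ℕ) : ℝ) ∧ ((j : ℕ) : ℝ) ≤ v).card : ℝ) ≤
      v - u + 1 := by
  have h1 : ((Finset.univ : Finset (Fin n)).filter fun j : Fin n => u ≤ ((j : ℕ) : ℝ) ∧ ((j : ℕ) : ℝ) ≤ v).card ≤
      (Finset.Icc ⌈u⌉₊ ⌊v⌋₊).card := by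
    apply Finset.card_le_card_of_injOn (fun j : Fin n => (j : ℕ))
    · intro j hj
      have hj2 := (Finset.mem_filter.1 (Finset.mem_coe.1 hj)).2
      rw [Finset.mem_coe, Finset.mem_Icc]
      exact ⟨Nat.ceil_le.2 hj2.1, Nat.le_floor hj2.2⟩
    · intro i _ j _ hij
      exact Fin.ext hij
  rw [Nat.card_Icc] at h1
  have h2 : (((Finset.univ : Finset (Fin n)).filter fun j : Fin n => u ≤ ((j : ℕ) : ℝ) ∧ ((j : ℕ) : ℝ) ≤ v).card : ℝ) ≤
      ((⌊v⌋₊ + 1 - ⌈u⌉₊ : ℕ) : ℝ) := by exact_mod_cast h1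
  refine h2.trans ?_
  have h3 : (⌊v⌋₊ : ℝ) ≤ v := Nat.floor_le hv
  have h4 : u ≤ (⌈u⌉₊ : ℝ) := Nat.le_ceil u
  rcases le_total (⌊v⌋₊ + 1) ⌈u⌉₊ with h5 | h5
  · rw [Nat.sub_eq_zero_of_le h5]
    push_cast
    linarith
  · rw [Nat.cast_sub h5]
    push_cast
    linarith

/-- the mass of the strip `a` under the noise, summed over all points -/
theorem strip_mass {n m : ℕ} [NeZero m] (hn : 0 < n) {R : ℝ} (hR : 1 ≤ R)
    (hRL : n + R ≤ m * R) (q : Fin n → Fin m → ℝ) 
    (hq : ∀ i a, q i a ≤ (n + R) / m / R)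
    (hq0 : ∀ (i : Fin n) (a : Fin m), ¬ (((a : ℕ) : ℝ) * ((n + R) / m) - R ≤ ((i : ℕ) : ℝ) ∧
      ((i : ℕ) : ℝ) ≤ (((a : ℕ) : ℝ) + 1) * ((n + R) / m)) → q i a ≤ 0) (a : Fin m) :
    ∑ i, q i a ≤ 6 * n / m := by
  have hm : (0 : ℝ) < m := by exact_mod_cast NeZero.pos m
  have hn' : (0 : ℝ) < n := by exact_mod_cast hn
  set L : ℝ := (n + R) / m with hL
  have hL0 : 0 < L := by positivity
  have hLR : L ≤ R := by
    rw [hL, div_le_iff₀ hm]
    linarith
  have hmL : m * L = n + R := by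
    rw [hL]
    field_simp
  have h1 : ∑ i, q i a ≤ (n : ℝ) * (L / R) := by
    calc ∑ i, q i a ≤ ∑ _i : Fin n, L / R := Finset.sum_le_sum fun i _ => hq i a
      _ = n * (L / R) := by simp
  have h2 : ∑ i, q i a ≤ (R + L + 1) * (L / R) := by
    have h3 : ∑ i, q i a ≤ ∑ i : Fin n, if (((a : ℕ) : ℝ) * L - R ≤ ((i : ℕ) : ℝ) ∧
        ((i : ℕ) : ℝ) ≤ (((a : ℕ) : ℝ) + 1) * L) then L / R else 0 := by
      apply Finset.sum_le_sum
      intro i _
      split_ifs with h
      · exact hq i a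
      · exact hq0 i a h
    refine h3.trans ?_
    rw [← Finset.sum_filter, Finset.sum_const, nsmul_eq_mul]
    apply mul_le_mul_of_nonneg_right _ (by positivity)
    refine (count_le (n := n) (u := ((a : ℕ) : ℝ) * L - R) (v := (((a : ℕ) : ℝ) + 1) * L) ?_ ?_).trans ?_
    · linarith [show (((a : ℕ) : ℝ) + 1) * L = ((a : ℕ) : ℝ) * L + L by ring]
    · positivity
    · linarith [show (((a : ℕ) : ℝ) + 1) * L = ((a : ℕ) : ℝ) * L + L by ring]
  rcases le_total (n : ℝ) R with h4 | h4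
  · refine h1.trans ?_
    have h5 : L ≤ 2 * R / m := by
      rw [hL]
      apply div_le_div_of_nonneg_right _ hm.le
      linarith
    calc (n : ℝ) * (L / R) ≤ n * (2 * R / m / R) := by
          apply mul_le_mul_of_nonneg_left _ hn'.le
          exact div_le_div_of_nonneg_right h5 (by linarith)
      _ = 2 * n / m := by field_simp
      _ ≤ 6 * n / m := by
          apply div_le_div_of_nonneg_right _ hm.le
          linarith
  · refine h2.trans ?_
    have h5 : L ≤ 2 * n / m := by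
      rw [hL]
      apply div_le_div_of_nonneg_right _ hm.le
      linarith
    calc (R + L + 1) * (L / R) ≤ (3 * R) * (L / R) := by
          apply mul_le_mul_of_nonneg_right _ (by positivity)
          linarith
      _ = 3 * L := by field_simp
      _ ≤ 3 * (2 * n / m) := by linarith
      _ = 6 * n / m := by ring

/-- `SMOOTHED TWINS` for the perturbed positions `i + R u_i` and values `π(i) + R v_i` -/
theorem smoothed {n : ℕ} (hn : 512 ≤ n) (π : Equiv.Perm (Fin n)) {R : ℝ}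
    (hR : 23 * Real.sqrt n ≤ R) :
    Measure.pi (fun _ : Fin n => unitSq) {z : Fin n → ℝ × ℝ | ¬ ∃ k : ℕ,
      (n : ℝ) ^ (2 / 3 : ℝ) / 400000 ≤ k ∧
      HasTwins (fun i => ((i : ℕ) : ℝ) + R * (z i).1) (fun i => ((π i : ℕ) : ℝ) + R * (z i).2) k} ≤
      ENNReal.ofReal (Real.exp (-((n : ℝ) ^ (2 / 3 : ℝ) / 4096))) := by
  have hn0 : 0 < n := by omega
  have hn' : (512 : ℝ) ≤ n := by exact_mod_cast hn
  set N : ℝ := (n : ℝ) ^ (2 / 3 : ℝ) with hN
  have hN0 : 0 < N := by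
    rw [hN]
    apply Real.rpow_pos_of_pos
    linarith
  have hN3 : N ^ 3 = (n : ℝ) ^ 2 := by
    rw [hN, ← Real.rpow_natCast, ← Real.rpow_natCast, ← Real.rpow_mul (by linarith)]
    norm_num
  have hN1 : 1 ≤ N := by
    rw [hN]
    apply Real.one_le_rpow (by linarith) (by norm_num)
  obtain ⟨m, hm1, hm2⟩ : ∃ m : ℕ, N ≤ m ∧ (m : ℝ) ≤ 2 * N :=
    ⟨⌈N⌉₊, Nat.le_ceil N, by linarith [(Nat.ceil_lt_add_one hN0.le)]⟩
  have hm0 : (0 : ℝ) < m := by linarith
  have : NeZero m := ⟨by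
    intro h
    rw [h] at hm0
    simp at hm0⟩
  have hsq : 0 ≤ Real.sqrt n := Real.sqrt_nonneg _
  have hsq2 : Real.sqrt n ^ 2 = n := Real.sq_sqrt (by linarith)
  have hsq1 : 1 ≤ Real.sqrt n := by
    rw [Real.one_le_sqrt]
    linarith
  have hR0 : 1 ≤ R := by linarith
  have hR2 : 529 * (n : ℝ) ≤ R ^ 2 := by
    have h1 := pow_le_pow_left₀ (by positivity) hR 2
    rw [mul_pow, hsq2] at h1
    linarith
  set L : ℝ := (n + R) / m with hL
  have hL0 : 0 < L := by positivity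
  have hmL : m * L = n + R := by
    rw [hL]
    field_simp
  -- N >= 64
  have hN64 : 64 ≤ N := by
    by_contra hcon
    push Not at hcon
    have h1 : N ^ 3 < 64 ^ 3 := pow_lt_pow_left₀ hcon hN0.le (by norm_num)
    rw [hN3] at h1
    nlinarith
  -- L / R small
  have hLR2 : (L / R) ^ 2 ≤ N / (128 * n) := by
    rw [le_div_iff₀ (by positivity)]
    rcases le_total (n : ℝ) R with h | h
    · have h1 : L / R ≤ 2 / m := by
        rw [hL, div_div, div_le_div_iff₀ (by positivity) hm0]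
        nlinarith
      have h2 : (L / R) ^ 2 ≤ (2 / N) ^ 2 := by
        apply pow_le_pow_left₀ (by positivity)
        refine h1.trans ?_
        exact div_le_div_of_nonneg_left (by norm_num) hN0 hm1
      have h3 : (2 / N) ^ 2 * (128 * n) ≤ N := by
        rw [div_pow, div_mul_eq_mul_div, div_le_iff₀ (by positivity)]
        have : N * N ^ 2 = (n : ℝ) ^ 2 := by
          rw [← hN3]
          ring
        rw [this]
        nlinarith
      refine le_trans ?_ h3
      exact mul_le_mul_of_nonneg_right h2 (by positivity)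
    · have h1 : L ≤ 2 * n / N := by
        have h2 : L ≤ 2 * n / m := by
          rw [hL]
          apply div_le_div_of_nonneg_right _ hm0.le
          linarith
        refine h2.trans ?_
        exact div_le_div_of_nonneg_left (by positivity) hN0 hm1
      have h2 : (L / R) ^ 2 ≤ (2 * n / N) ^ 2 / (529 * n) := by
        rw [div_pow]
        apply div_le_div₀ (by positivity) _ (by positivity) hR2
        exact pow_le_pow_left₀ hL0.le h1 2
      have h3 : (2 * n / N) ^ 2 / (529 * n) * (128 * n) = 512 / 529 * N := by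
        have h4 : (n : ℝ) ≠ 0 := by positivity
        have h5 : N ≠ 0 := hN0.ne'
        have h6 : (2 * (n : ℝ) / N) ^ 2 / (529 * n) * (128 * n) = 512 / 529 * ((n : ℝ) ^ 2 / N ^ 2) := by
          field_simp
          norm_num
        rw [h6, ← hN3]
        field_simp
      calc (L / R) ^ 2 * (128 * n) ≤ (2 * n / N) ^ 2 / (529 * n) * (128 * n) :=
            mul_le_mul_of_nonneg_right h2 (by positivity)
        _ = 512 / 529 * N := h3
        _ ≤ N := by linarith
  have hRL : n + R ≤ m * R := by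
    rcases le_total (n : ℝ) R with h | h
    · nlinarith
    · -- n <= m R / 2
      have h1 : (n : ℝ) ≤ (m : ℝ) * R / 2 := by
        have h2 : (n : ℝ) ^ 2 ≤ ((m : ℝ) * R / 2) ^ 2 := by
          have h3 : N ^ 2 ≤ (m : ℝ) ^ 2 := pow_le_pow_left₀ hN0.le hm1 2
          have h4 : N ^ 2 * (529 * n) ≤ (m : ℝ) ^ 2 * R ^ 2 :=
            mul_le_mul h3 hR2 (by positivity) (by positivity)
          have h5 : (n : ℝ) ≤ N ^ 2 := by
            by_contra hcon
            push Not at hcon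
            have h6 : N ^ 3 * N ≤ N ^ 2 * N ^ 2 := by
              apply le_of_eq
              ring
            have h7 : N ^ 2 * N ^ 2 < (n : ℝ) * n := by
              apply mul_lt_mul'' hcon hcon (by positivity) (by positivity)
            rw [hN3] at h6
            nlinarith
          nlinarith
        exact le_of_sq_le_sq h2 (by positivity)
      nlinarith
  -- the cells
  have hcell : ∀ (j : ℝ) (u : ℝ) (a : Fin m), 0 ≤ j → j ≤ n → 0 ≤ u → u ≤ 1 →
      strip m L (j + R * u) = a → (((a : ℕ) : ℝ) * L - j) / R ≤ u ∧ u ≤ ((((a : ℕ) : ℝ) + 1) * L - j) / R := by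
    intro j u a hj0 hj hu0 hu1 h
    have hRu : R * u ≤ R := by nlinarith
    have hRu0 : 0 ≤ R * u := by positivity
    obtain ⟨h1, h2⟩ := strip_bounds hL0 (by linarith) (by rw [hmL]; linarith) h
    constructor
    · rw [div_le_iff₀ (by linarith)]
      linarith
    · rw [le_div_iff₀ (by linarith)]
      linarith
  have hlen : ∀ (j : ℝ) (a : Fin m), ((((a : ℕ) : ℝ) + 1) * L - j) / R - (((a : ℕ) : ℝ) * L - j) / R = L / R := by
    intro j a
    rw [← sub_div]
    congr 1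
    ring
  have hle : ∀ (j : ℝ) (a : Fin m), (((a : ℕ) : ℝ) * L - j) / R ≤ ((((a : ℕ) : ℝ) + 1) * L - j) / R := by
    intro j a
    have h1 := hlen j a
    have h2 : 0 ≤ L / R := by positivity
    linarith
  have hfin : ∀ i : Fin n, (0 : ℝ) ≤ ((i : ℕ) : ℝ) ∧ ((i : ℕ) : ℝ) ≤ n := by
    intro i
    exact ⟨Nat.cast_nonneg _, by exact_mod_cast i.2.le⟩
  have hX : ∀ (i : Fin n) (a : Fin m),
      (unitSq {z | strip m L (((i : ℕ) : ℝ) + R * z.1) = a}).toReal ≤ L / R := by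
    intro i a
    have h1 := unitSq_le (s := {z | strip m L (((i : ℕ) : ℝ) + R * z.1) = a}) (hle i a) zero_le_one
      (fun z hz hz2 => ⟨hcell i z.1 a (hfin i).1 (hfin i).2 (mem_sq hz2).1.1 (mem_sq hz2).1.2 hz,
        (mem_sq hz2).2⟩)
    rw [hlen] at h1
    linarith
  have hY : ∀ (i : Fin n) (a : Fin m),
      (unitSq {z | strip m L (((i : ℕ) : ℝ) + R * z.2) = a}).toReal ≤ L / R := by
    intro i a
    have h1 := unitSq_le (s := {z | strip m L (((i : ℕ) : ℝ) + R * z.2) = a}) zero_le_one (hle i a)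
      (fun z hz hz2 => ⟨(mem_sq hz2).1,
        hcell i z.2 a (hfin i).1 (hfin i).2 (mem_sq hz2).2.1 (mem_sq hz2).2.2 hz⟩)
    rw [hlen] at h1
    linarith
  have hempty : ∀ (i : Fin n) (a : Fin m) (u : ℝ), ¬ (((a : ℕ) : ℝ) * L - R ≤ ((i : ℕ) : ℝ) ∧
      ((i : ℕ) : ℝ) ≤ (((a : ℕ) : ℝ) + 1) * L) → 0 ≤ u → u ≤ 1 → strip m L (((i : ℕ) : ℝ) + R * u) ≠ a := by
    intro i a u hi hu0 hu1 h
    obtain ⟨h1, h2⟩ := hcell i u a (hfin i).1 (hfin i).2 hu0 hu1 h
    rw [div_le_iff₀ (by linarith)] at h1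
    rw [le_div_iff₀ (by linarith)] at h2
    have hRu : u * R ≤ R := by nlinarith
    have hRu0 : 0 ≤ u * R := by positivity
    exact hi ⟨by linarith, by linarith⟩
  have hX0 : ∀ (i : Fin n) (a : Fin m), ¬ (((a : ℕ) : ℝ) * L - R ≤ ((i : ℕ) : ℝ) ∧
      ((i : ℕ) : ℝ) ≤ (((a : ℕ) : ℝ) + 1) * L) →
      (unitSq {z | strip m L (((i : ℕ) : ℝ) + R * z.1) = a}).toReal ≤ 0 := by
    intro i a hi
    have h1 := unitSq_le (s := {z | strip m L (((i : ℕ) : ℝ) + R * z.1) = a}) (le_refl (0 : ℝ))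
      (le_refl (0 : ℝ)) (fun z hz hz2 =>
        absurd hz (hempty i a z.1 hi (mem_sq hz2).1.1 (mem_sq hz2).1.2))
    simpa using h1
  have hY0 : ∀ (i : Fin n) (a : Fin m), ¬ (((a : ℕ) : ℝ) * L - R ≤ ((i : ℕ) : ℝ) ∧
      ((i : ℕ) : ℝ) ≤ (((a : ℕ) : ℝ) + 1) * L) →
      (unitSq {z | strip m L (((i : ℕ) : ℝ) + R * z.2) = a}).toReal ≤ 0 := by
    intro i a hi
    have h1 := unitSq_le (s := {z | strip m L (((i : ℕ) : ℝ) + R * z.2) = a}) (le_refl (0 : ℝ))
      (le_refl (0 : ℝ)) (fun z hz hz2 =>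
        absurd hz (hempty i a z.2 hi (mem_sq hz2).2.1 (mem_sq hz2).2.2))
    simpa using h1
  refine transfer hn0 (fun _ => unitSq) (fun i z => ((i : ℕ) : ℝ) + R * z.1)
    (fun i z => ((π i : ℕ) : ℝ) + R * z.2) (strip m L) (strip m L) (strip_mono hL0) (strip_mono hL0)
    ?_ N hN0 hN3 hm1 hm2 ?_ ?_ ((L / R) ^ 2) (by positivity) hLR2 ?_
  · intro i
    apply Measurable.prodMk
    · exact (strip_meas hL0).comp (by fun_prop)
    · exact (strip_meas hL0).comp (by fun_prop)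
  · intro a
    exact strip_mass hn0 hR0 hRL (fun i a => (unitSq {z | strip m L (((i : ℕ) : ℝ) + R * z.1) = a}).toReal)
      hX hX0 a
  · intro b
    rw [Equiv.sum_comp π (fun i => (unitSq {z | strip m L (((i : ℕ) : ℝ) + R * z.2) = b}).toReal)]
    exact strip_mass hn0 hR0 hRL (fun i a => (unitSq {z | strip m L (((i : ℕ) : ℝ) + R * z.2) = a}).toReal)
      hY hY0 b
  · intro c
    have h1 : ∀ i : Fin n, (unitSq (cellOf (strip m L) (strip m L) (fun z => ((i : ℕ) : ℝ) + R * z.1)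
        (fun z => ((π i : ℕ) : ℝ) + R * z.2) ⁻¹' {c})).toReal ≤ (L / R) ^ 2 := by
      intro i
      have h2 := unitSq_le (s := cellOf (strip m L) (strip m L) (fun z => ((i : ℕ) : ℝ) + R * z.1)
        (fun z => ((π i : ℕ) : ℝ) + R * z.2) ⁻¹' {c}) (hle i c.1) (hle (π i) c.2)
        (fun z hz hz2 => by
          have h3 : cellOf (strip m L) (strip m L) (fun z => ((i : ℕ) : ℝ) + R * z.1)
            (fun z => ((π i : ℕ) : ℝ) + R * z.2) z = c := hz
          rw [cellOf] at h3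
          exact ⟨hcell i z.1 c.1 (hfin i).1 (hfin i).2 (mem_sq hz2).1.1 (mem_sq hz2).1.2
              (congrArg Prod.fst h3),
            hcell (π i) z.2 c.2 (hfin (π i)).1 (hfin (π i)).2 (mem_sq hz2).2.1 (mem_sq hz2).2.2
              (congrArg Prod.snd h3)⟩)
      rw [hlen, hlen] at h2
      rw [sq]
      exact h2
    have h3 : ∑ i : Fin n, (unitSq (cellOf (strip m L) (strip m L) (fun z => ((i : ℕ) : ℝ) + R * z.1)
        (fun z => ((π i : ℕ) : ℝ) + R * z.2) ⁻¹' {c})).toReal ^ 2 ≤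
        (L / R) ^ 2 * ∑ i : Fin n, (unitSq (cellOf (strip m L) (strip m L)
          (fun z => ((i : ℕ) : ℝ) + R * z.1) (fun z => ((π i : ℕ) : ℝ) + R * z.2) ⁻¹' {c})).toReal := by
      rw [Finset.mul_sum]
      apply Finset.sum_le_sum
      intro i _
      rw [sq]
      exact mul_le_mul_of_nonneg_right (h1 i) ENNReal.toReal_nonneg
    have h4 := sq_nonneg (∑ i : Fin n, (unitSq (cellOf (strip m L) (strip m L)
          (fun z => ((i : ℕ) : ℝ) + R * z.1) (fun z => ((π i : ℕ) : ℝ) + R * z.2) ⁻¹' {c})).toReal)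
    linarith

end Pool.Agent.STw
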