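import Pool.Agent.STw.F

/-!
MP_eb68d6_co, smoothed twins, module G.

Independent points with the same law, an arbitrary permuton.
-/

namespace Pool.Agent.STw

open Finset MeasureTheory

/-- a permuton: a probability measure on the plane whose two marginals are the uniform
distribution of `[0, 1]` -/
structure IsPermuton (μ : Measure (ℝ × ℝ)) : Prop where
  fst : μ.map Prod.fst = (volume : Measure ℝ).restrict (Set.Icc 0 1)
  snd : μ.map Prod.snd = (volume : Measure ℝ).restrict (Set.Icc 0 1)

theorem IsPermuton.prob {μ : Measure (ℝ × ℝ)} (h : IsPermuton μ) : IsProbabilityMeasure μ := by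
  constructor
  have h1 : (μ.map Prod.fst) Set.univ = 1 := by
    rw [h.fst, Measure.restrict_apply_univ, Real.volume_Icc]
    simp
  rwa [Measure.map_apply measurable_fst MeasurableSet.univ, Set.preimage_univ] at h1

theorem unit_strip {m : ℕ} [NeZero m] (a : Fin m) :
    ((volume : Measure ℝ).restrict (Set.Icc 0 1)) {x | strip m (1 / (m : ℝ)) x = a} ≤
      ENNReal.ofReal (1 / m) := by
  have hm : (0 : ℝ) < m := by exact_mod_cast NeZero.pos m
  rw [Measure.restrict_apply' measurableSet_Icc]
  have h1 : {x | strip m (1 / (m : ℝ)) x = a} ∩ Set.Icc 0 1 ⊆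
      Set.Icc (((a : ℕ) : ℝ) * (1 / m)) ((((a : ℕ) : ℝ) + 1) * (1 / m)) := by
    intro x hx
    exact strip_bounds (by positivity) hx.2.1 (by
      rw [mul_one_div_cancel hm.ne']
      exact hx.2.2) hx.1
  refine (measure_mono h1).trans (le_of_eq ?_)
  rw [Real.volume_Icc]
  congr 1
  ring

/-- `TWINS OF RANDOM PERMUTATIONS OF A PERMUTON` -/
theorem permuton {n : ℕ} (hn : 2 ≤ n) (μ : Measure (ℝ × ℝ)) (hμ : IsPermuton μ) :
    Measure.pi (fun _ : Fin n => μ) {z : Fin n → ℝ × ℝ | ¬ ∃ k : ℕ,
      (n : ℝ) ^ (2 / 3 : ℝ) / 400000 ≤ k ∧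
      HasTwins (fun i => (z i).1) (fun i => (z i).2) k} ≤
      ENNReal.ofReal (Real.exp (-((n : ℝ) ^ (2 / 3 : ℝ) / 4096))) := by
  have hprob := hμ.prob
  have hn0 : 0 < n := by omega
  have hn' : (2 : ℝ) ≤ n := by exact_mod_cast hn
  set N : ℝ := (n : ℝ) ^ (2 / 3 : ℝ) with hN
  have hN0 : 0 < N := by
    rw [hN]
    apply Real.rpow_pos_of_pos
    linarith
  have hN3 : N ^ 3 = (n : ℝ) ^ 2 := by
    rw [hN, ← Real.rpow_natCast, ← Real.rpow_natCast, ← Real.rpow_mul (by linarith)]
    norm_num
  have hN1 : 1 ≤ N := by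
    rw [hN]
    apply Real.one_le_rpow (by linarith) (by norm_num)
  obtain ⟨m, hm1, hm2⟩ : ∃ m : ℕ, N ≤ m ∧ (m : ℝ) ≤ 2 * N :=
    ⟨⌈N⌉₊, Nat.le_ceil N, by linarith [(Nat.ceil_lt_add_one hN0.le)]⟩
  have hm0 : (0 : ℝ) < m := by linarith
  have : NeZero m := ⟨by
    intro h
    rw [h] at hm0
    simp at hm0⟩
  set L : ℝ := 1 / (m : ℝ) with hL
  have hL0 : 0 < L := by positivity
  have hX : ∀ a : Fin m, (μ {z | strip m L z.1 = a}).toReal ≤ 1 / m := by
    intro a
    apply ENNReal.toReal_le_of_le_ofReal (by positivity)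
    have h1 := unit_strip a
    have hs : MeasurableSet {x | strip m (1 / (m : ℝ)) x = a} :=
      (strip_meas hL0) (measurableSet_singleton a)
    rw [← hμ.fst, Measure.map_apply measurable_fst hs] at h1
    exact h1
  have hY : ∀ a : Fin m, (μ {z | strip m L z.2 = a}).toReal ≤ 1 / m := by
    intro a
    apply ENNReal.toReal_le_of_le_ofReal (by positivity)
    have h1 := unit_strip a
    have hs : MeasurableSet {x | strip m (1 / (m : ℝ)) x = a} :=
      (strip_meas hL0) (measurableSet_singleton a)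
    rw [← hμ.snd, Measure.map_apply measurable_snd hs] at h1
    exact h1
  refine transfer hn0 (fun _ => μ) (fun _ z => z.1) (fun _ z => z.2) (strip m L) (strip m L)
    (strip_mono hL0) (strip_mono hL0) ?_ N hN0 hN3 hm1 hm2 ?_ ?_ 0 le_rfl (by positivity) ?_
  · intro i
    apply Measurable.prodMk
    · exact (strip_meas hL0).comp measurable_fst
    · exact (strip_meas hL0).comp measurable_snd
  · intro a
    rw [Finset.sum_const, Finset.card_univ, Fintype.card_fin, nsmul_eq_mul]
    calc (n : ℝ) * (μ {z | strip m L z.1 = a}).toReal ≤ n * (1 / m) :=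
          mul_le_mul_of_nonneg_left (hX a) (by positivity)
      _ = n / m := by ring
      _ ≤ 6 * n / m := by
          apply div_le_div_of_nonneg_right _ hm0.le
          linarith
  · intro a
    rw [Finset.sum_const, Finset.card_univ, Fintype.card_fin, nsmul_eq_mul]
    calc (n : ℝ) * (μ {z | strip m L z.2 = a}).toReal ≤ n * (1 / m) :=
          mul_le_mul_of_nonneg_left (hY a) (by positivity)
      _ = n / m := by ring
      _ ≤ 6 * n / m := by
          apply div_le_div_of_nonneg_right _ hm0.le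
          linarith
  · intro c
    rw [Finset.sum_const, Finset.sum_const, Finset.card_univ, Fintype.card_fin, nsmul_eq_mul,
      nsmul_eq_mul]
    set t := (μ (cellOf (strip m L) (strip m L) (fun z => z.1) (fun z => z.2) ⁻¹' {c})).toReal
      with ht
    have ht0 : 0 ≤ t := ENNReal.toReal_nonneg
    have h5 : (0 : ℝ) ≤ n * (n - 2) := mul_nonneg (by linarith) (by linarith)
    nlinarith [mul_nonneg (sq_nonneg t) h5]

end Pool.Agent.STw
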